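import Mathlib

set_option autoImplicit false
set_option maxRecDepth 100000

namespace Pool.Agent.Results.MP_28dfab_co.Cex

variable (P : Type) [PartialOrder P] [Fintype P] [DecidableEq P]

/-- Largest size of a union of `k` pairwise disjoint antichains. -/
noncomputable def d (k : ℕ) : ℕ :=
  sSup {n | ∃ A : Fin k → Finset P, (∀ i, IsAntichain (· ≤ ·) (A i : Set P)) ∧
    (∀ i j, i ≠ j → Disjoint (A i) (A j)) ∧ (Finset.univ.biUnion A).card = n}

/-- Largest size of a chain. -/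
noncomputable def height : ℕ := sSup {n | ∃ C : Finset P, IsChain (· ≤ ·) (C : Set P) ∧ C.card = n}

/-- `d`-decomposability. -/
def Decomp : Prop := ∃ A : Fin (height P) → Finset P, (∀ i, IsAntichain (· ≤ ·) (A i : Set P)) ∧
  (∀ i j, i ≠ j → Disjoint (A i) (A j)) ∧ Finset.univ.biUnion A = Finset.univ ∧
  ∀ k, 1 ≤ k → k ≤ height P → ((Finset.univ.filter (fun i => i.val < k)).biUnion A).card = d P k

/-- `P` has an induced copy of the six-element poset. -/
def HasP6 : Prop := ∃ x y : Fin 3 → P, Function.Injective x ∧ Function.Injective y ∧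
  (∀ i j, x i ≠ y j) ∧ (∀ i j, ¬x i < x j) ∧ (∀ i j, ¬y i < y j) ∧ (∀ i j, ¬y i < x j) ∧
  ∀ i j, x i < y j ↔ (i = 1 ∨ j = 1)

def Q := Fin 8

instance : Fintype Q := inferInstanceAs (Fintype (Fin 8))
instance : DecidableEq Q := inferInstanceAs (DecidableEq (Fin 8))

def r (a b : Fin 8) : Prop :=
  a = b ∨ (a.val, b.val) ∈ [(0, 4), (0, 5), (0, 6), (1, 6), (1, 7), (2, 7), (3, 7)]

instance : DecidableRel r := fun a b => by unfold r; infer_instance

instance : PartialOrder Q where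
  le := r
  le_refl a := Or.inl rfl
  le_trans := (by decide : ∀ a b c : Fin 8, r a b → r b c → r a c)
  le_antisymm := (by decide : ∀ a b : Fin 8, r a b → r b a → a = b)

lemma lt_iff (a b : Q) : a < b ↔ r a b ∧ ¬r b a := lt_iff_le_not_ge

lemma anti (A : Finset Q) : IsAntichain (· ≤ ·) (A : Set Q) ↔ ∀ a ∈ A, ∀ b ∈ A, a ≠ b → ¬r a b :=
  Iff.rfl

lemma h2 : height Q = 2 := by
  apply IsGreatest.csSup_eq
  constructor
  · refine ⟨({0, 4} : Finset (Fin 8)), ?_, by decide⟩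
    show ∀ a ∈ ({0, 4} : Finset (Fin 8)), ∀ b ∈ ({0, 4} : Finset (Fin 8)), a ≠ b → r a b ∨ r b a
    decide
  · rintro n ⟨C, hC, rfl⟩
    have : ∀ C : Finset (Fin 8), (∀ a ∈ C, ∀ b ∈ C, a ≠ b → r a b ∨ r b a) → C.card ≤ 2 := by
      decide +kernel
    exact this C hC

lemma d1 : 5 ≤ d Q 1 := by
  refine le_csSup ⟨8, ?_⟩ ⟨fun _ => ({2, 3, 4, 5, 6} : Finset (Fin 8)), fun _ => ?_, by simp, by decide⟩
  · rintro n ⟨A, -, -, rfl⟩
    exact Finset.card_le_univ _
  · rw [anti]; beta_reduce; decide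

theorem result : ∃ (P : Type) (_ : PartialOrder P) (_ : Fintype P) (_ : DecidableEq P),
    ¬HasP6 P ∧ ¬Decomp P := by
  refine ⟨Q, inferInstance, inferInstance, inferInstance, ?_, ?_⟩
  · rintro ⟨x, y, hx, hy, -, -, -, -, h⟩
    have : ∀ b f : Fin 8, (∃ a c : Fin 8, a ≠ b ∧ a ≠ c ∧ b ≠ c ∧ (r a f ∧ ¬r f a) ∧
        (r b f ∧ ¬r f b) ∧ (r c f ∧ ¬r f c)) →
        ¬∃ e g : Fin 8, e ≠ f ∧ e ≠ g ∧ f ≠ g ∧ (r b e ∧ ¬r e b) ∧ (r b g ∧ ¬r g b) := by
      decide +kernel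
    simp only [lt_iff] at h
    exact this (x 1) (y 1) ⟨x 0, x 2, hx.ne (by decide), hx.ne (by decide), hx.ne (by decide),
      (h _ _).2 (by simp), (h _ _).2 (by simp), (h _ _).2 (by simp)⟩ ⟨y 0, y 2, hy.ne (by decide),
      hy.ne (by decide), hy.ne (by decide), (h _ _).2 (by simp), (h _ _).2 (by simp)⟩
  · unfold Decomp
    rw [h2]
    rintro ⟨A, h1, -, h3, h4⟩
    have e := h4 1 le_rfl (by norm_num)
    have e1 : (Finset.univ.filter (fun i : Fin 2 => i.val < 1)) = {0} := by decide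
    rw [e1, Finset.singleton_biUnion] at e
    have e2 : (A 0)ᶜ ⊆ A 1 := by
      intro a ha
      have : a ∈ Finset.univ.biUnion A := h3 ▸ Finset.mem_univ a
      simp only [Finset.mem_biUnion, Finset.mem_univ, true_and, Fin.exists_fin_two] at this
      exact this.resolve_left (Finset.mem_compl.mp ha)
    have key : ∀ B : Finset (Fin 8), (∀ a ∈ B, ∀ b ∈ B, a ≠ b → ¬r a b) → 5 ≤ B.card →
        ¬∀ a ∈ Bᶜ, ∀ b ∈ Bᶜ, a ≠ b → ¬r a b := by decide +kernel
    exact key (A 0) ((anti _).1 (h1 0)) (e ▸ d1) fun a ha b hb =>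
      (anti _).1 (h1 1) a (e2 ha) b (e2 hb)

end Pool.Agent.Results.MP_28dfab_co.Cex
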